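import Pool.Agent.Helper71.PY.Goals

/-!
# PY-INJ: extending linear forms from the kernel of z to the new Lagrangian
-/

set_option autoImplicit false

namespace Pool.Agent.Helper59.PY

open Pool.Agent.Helper71.PY

theorem inj : G_INJ := by
  intro R _ _ _ x y hR N _ _ B hs P hP z p1 nx ny S η v hη
  have hx0 : x ≠ 0 := hR.prx.ne_zero
  have hnx : nx ∈ P1 B P z nx ny := by
    refine ⟨fun p hp => ?_, S.xx, S.xy⟩
    rw [S.hx p, hp, mul_zero]
  have hny : ny ∈ P1 B P z nx ny := by
    refine ⟨fun p hp => ?_, ?_, S.yy⟩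
    · rw [S.hy p, hp, mul_zero]
    · rw [hs]; exact S.xy
  -- the key relation
  have key : ∀ w : P1 B P z nx ny,
      x * (η w - B v w) = B (w : N) p1 * (η ⟨nx, hnx⟩ - B v nx) := by
    intro w
    obtain ⟨hw1, hw2, hw3⟩ := w.2
    have hBw : ∀ q : P, B (w : N) q = z q * B (w : N) p1 := by
      intro q
      have h0 : z (q - z q • p1) = 0 := by
        rw [map_sub, map_smul, S.one, smul_eq_mul, mul_one, sub_self]
      have h1 := hw1 _ h0
      have h2 : ((q - z q • p1 : P) : N) = (q : N) - z q • (p1 : N) := rfl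
      rw [h2, map_sub, map_smul, smul_eq_mul, sub_eq_zero] at h1
      exact h1
    have huP : x • (w : N) - B (w : N) p1 • nx ∈ P := by
      rw [hP]
      intro q hq
      have h1 := hBw ⟨q, hq⟩
      have h2 := S.hx ⟨q, hq⟩
      simp only at h1 h2
      rw [map_sub, map_smul, map_smul, LinearMap.sub_apply, LinearMap.smul_apply,
        LinearMap.smul_apply, smul_eq_mul, smul_eq_mul, h1, h2]
      ring
    have hzu : z ⟨x • (w : N) - B (w : N) p1 • nx, huP⟩ = 0 := by
      have h1 := S.hx ⟨x • (w : N) - B (w : N) p1 • nx, huP⟩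
      simp only at h1
      rw [map_sub, map_smul, map_smul, hs nx w, hw2, S.xx, smul_zero, smul_zero, sub_zero] at h1
      rcases mul_eq_zero.mp h1.symm with h | h
      · exact absurd h hx0
      · exact h
    have hu1 : η (x • w - B (w : N) p1 • (⟨nx, hnx⟩ : P1 B P z nx ny))
        = B v ((x • w - B (w : N) p1 • (⟨nx, hnx⟩ : P1 B P z nx ny) : P1 B P z nx ny) : N) :=
      hη _ huP hzu
    have h3 : ((x • w - B (w : N) p1 • (⟨nx, hnx⟩ : P1 B P z nx ny) : P1 B P z nx ny) : N)
        = x • (w : N) - B (w : N) p1 • nx := rfl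
    rw [h3, map_sub, map_smul, map_smul, map_sub, map_smul, map_smul, smul_eq_mul, smul_eq_mul,
      smul_eq_mul, smul_eq_mul] at hu1
    linear_combination hu1
  have hyy : B ny p1 = y := by
    rw [S.hy p1, S.one, mul_one]
  have hk := key ⟨ny, hny⟩
  simp only at hk
  rw [hyy] at hk
  have hdvd : x ∣ η ⟨nx, hnx⟩ - B v nx := by
    have : x ∣ y * (η ⟨nx, hnx⟩ - B v nx) := ⟨_, hk.symm⟩
    rcases hR.prx.dvd_or_dvd this with h | h
    · exact absurd h hR.ndvd
    · exact h
  obtain ⟨r, hr⟩ := hdvd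
  refine ⟨v + r • (p1 : N), fun w => ?_⟩
  have h1 := key w
  rw [hr] at h1
  have h2 : x * (η w - B v w - r * B (w : N) p1) = 0 := by
    linear_combination h1
  rcases mul_eq_zero.mp h2 with h | h
  · exact absurd h hx0
  · rw [map_add, LinearMap.add_apply, map_smul, LinearMap.smul_apply, smul_eq_mul,
      hs (p1 : N) (w : N)]
    linear_combination h

end Pool.Agent.Helper59.PY
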